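import Pool.Agent.H6.N4D.TA
import Pool.Agent.H6.N4D.TB

/-! (E1S) the clipped difference is almost constant under small shifts. -/

set_option autoImplicit false

namespace Pool.Agent.H81.N4D

open Finset Pool.Agent.H6.N4D

/-- the distance of two numbers up to sign -/
noncomputable def mm (a b : ℝ) : ℝ := min (nd (b - a)) (nd (b + a))

theorem mm_nonneg (a b : ℝ) : 0 ≤ mm a b := le_min (nd_nonneg _) (nd_nonneg _)

theorem mm_sign {τ τ' : ℝ} (h : τ = 1 ∨ τ = -1) (h' : τ' = 1 ∨ τ' = -1) (a b : ℝ) :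
    mm (τ * a) (τ' * b) = mm a b := by
  unfold mm
  rcases h with rfl | rfl <;> rcases h' with rfl | rfl
  · simp
  · have h1 : nd (-1 * b - 1 * a) = nd (b + a) := by
      rw [← nd_neg]; congr 1; ring
    have h2 : nd (-1 * b + 1 * a) = nd (b - a) := by
      rw [← nd_neg]; congr 1; ring
    rw [h1, h2, min_comm]
  · have h1 : nd (1 * b - -1 * a) = nd (b + a) := by congr 1; ring
    have h2 : nd (1 * b + -1 * a) = nd (b - a) := by congr 1; ring
    rw [h1, h2, min_comm]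
  · have h1 : nd (-1 * b - -1 * a) = nd (b - a) := by
      rw [← nd_neg]; congr 1; ring
    have h2 : nd (-1 * b + -1 * a) = nd (b + a) := by
      rw [← nd_neg]; congr 1; ring
    rw [h1, h2]

theorem mm_lip (a b a' b' : ℝ) : |mm a' b' - mm a b| ≤ nd (a' - a) + nd (b' - b) := by
  unfold mm
  refine (abs_min_sub_min_le_max _ _ _ _).trans (max_le ?_ ?_)
  · refine (abs_nd_sub _ _).trans ?_
    have h := nd_sub_le (b' - b) (a' - a)
    have e : b' - b - (a' - a) = b' - a' - (b - a) := by ring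
    rw [e] at h
    linarith
  · refine (abs_nd_sub _ _).trans ?_
    have h := nd_add_le (b' - b) (a' - a)
    have e : b' - b + (a' - a) = b' + a' - (b + a) := by ring
    rw [e] at h
    linarith

theorem clip_scale {Y d : ℝ} (hY : 0 ≤ Y) (hd : 0 ≤ d) :
    |min (Y * (1 + d)) 16 - min Y 16| ≤ 16 * d := by
  have h1 : min Y 16 ≤ min (Y * (1 + d)) 16 :=
    min_le_min_right _ (by nlinarith [mul_nonneg hY hd])
  rw [abs_of_nonneg (by linarith)]
  rcases le_total Y 16 with h | h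
  · rw [min_eq_left h]
    have h2 : min (Y * (1 + d)) 16 ≤ Y * (1 + d) := min_le_left _ _
    nlinarith
  · rw [min_eq_right h]
    have h2 : min (Y * (1 + d)) 16 ≤ 16 := min_le_right _ _
    have : 0 ≤ 16 * d := by positivity
    linarith

theorem clip_lip (x y : ℝ) : |min x 16 - min y 16| ≤ |x - y| := by
  refine (abs_min_sub_min_le_max _ _ _ _).trans (max_le le_rfl ?_)
  simp

theorem exp_sub_one_le {z : ℝ} (h0 : 0 ≤ z) (h1 : z ≤ 1) : Real.exp z - 1 ≤ 2 * z := by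
  have h2 := Real.abs_exp_sub_one_le (x := z) (by rw [abs_of_nonneg h0]; exact h1)
  rw [abs_of_nonneg h0] at h2
  exact (le_abs_self _).trans h2

theorem pf_E1S (hSIZ : T_SIZ) : T_E1S := by
  classical
  intro K ε₁ ε' hK hε₁ hε₁1 hε' hε'1
  obtain ⟨X₁, hX₁⟩ := hSIZ
  obtain ⟨X₂, hX₂⟩ := LL_large (1 / ε')
  refine ⟨max (max X₁ X₂) ((8 / ε') ^ 4), ?_⟩
  intro S ε₀ η θ φ hS hSK hX hε₀ hε₀' hR k hk w hw1 hw2
  have hX1 : X₁ ≤ S.X := ((le_max_left _ _).trans (le_max_left _ _)).trans hX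
  have hX2 : X₂ ≤ S.X := ((le_max_right _ _).trans (le_max_left _ _)).trans hX
  have hX3 : (8 / ε') ^ 4 ≤ S.X := (le_max_right _ _).trans hX
  obtain ⟨hL1, hP100, -, hρ100, -, -, hVh, hV1, -, -, -, hN0, -⟩ := hX₁ S hS hX1
  have hLε : 1 / ε' ≤ S.L := hX₂ S.X hX2
  have hh := hS.hh
  have hρ := hS.hr0
  -- the radius is small
  have hρε : S.rho * (8 / ε') ≤ 1 := by
    have h1 : 8 / ε' ≤ S.X ^ (1 / 4 : ℝ) := by
      have h2 : (8 / ε' : ℝ) = ((8 / ε') ^ 4) ^ (1 / 4 : ℝ) := by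
        rw [← Real.rpow_natCast, ← Real.rpow_mul (by positivity)]
        norm_num
      rw [h2]
      exact Real.rpow_le_rpow (by positivity) hX3 (by norm_num)
    exact (mul_le_mul_of_nonneg_left h1 hρ.le).trans hS.hr1
  have hρ8 : 8 * S.rho ≤ ε' := by
    have h1 : S.rho * (8 / ε') = 8 * S.rho / ε' := by ring
    rw [h1, div_le_one hε'] at hρε
    exact hρε
  have hwV : (w : ℝ) ≤ S.V := by exact_mod_cast hw2
  have hwh : (w : ℝ) * S.h ≤ S.rho ^ 2 :=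
    (mul_le_mul_of_nonneg_right hwV hh.le).trans hVh
  have hρ2 : S.rho ^ 2 ≤ S.rho / 100 := by
    rw [sq]
    have := mul_le_mul_of_nonneg_left hρ100 hρ.le
    linarith
  have hwh4 : (w : ℝ) * S.h ≤ S.rho / 4 := by linarith
  have hshf := hR.shf w hwh4
  -- the pointwise estimate
  have hpt : ∀ t ∈ S.I, (t + (w : ℤ) ∈ S.I ∧
      ε' < |F1 S ε₁ θ k (t + w) - F1 S ε₁ θ k t|) →
      ((t + (w : ℤ) ∈ S.I ∧ ¬ ShR S ε₀ θ φ t w) ∨
        (t + 2 ^ k ∈ S.I ∧ (t + 2 ^ k + (w : ℤ) ∈ S.I ∧ ¬ ShR S ε₀ θ φ (t + 2 ^ k) w))) ∨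
      (t + 2 ^ k ∉ S.I ∨ t + (2 ^ k + (w : ℤ)) ∉ S.I) := by
    rintro t ht ⟨htw, hlt⟩
    by_contra hcon
    rw [not_or, not_or, not_or] at hcon
    obtain ⟨⟨hc1, hc2⟩, hc3, hc4⟩ := hcon
    rw [not_not] at hc3 hc4
    have hc4' : t + 2 ^ k + (w : ℤ) ∈ S.I := by rwa [add_assoc]
    have hA : ShR S ε₀ θ φ t w := by
      by_contra h
      exact hc1 ⟨htw, h⟩
    have hB : ShR S ε₀ θ φ (t + 2 ^ k) w := by
      by_contra h
      exact hc2 ⟨hc3, hc4', h⟩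
    obtain ⟨τ, hτ, hτ1, -⟩ := hA
    obtain ⟨τ', hτ', hτ1', -⟩ := hB
    have hxt := Par.x_pos (S := S) t
    have hx1 : S.x t ≤ S.x (t + 2 ^ k) := Par.x_mono hh (by
      have : (0 : ℤ) ≤ 2 ^ k := by positivity
      linarith)
    have hx1' := Par.x_pos (S := S) (t + 2 ^ k)
    have hb2 : nd (θ (t + 2 ^ k + w) - τ' * θ (t + 2 ^ k)) ≤ ε₀ / (S.rho * S.x t) := by
      refine hτ1'.trans ?_
      exact div_le_div_of_nonneg_left hε₀ (by positivity)
        (mul_le_mul_of_nonneg_left hx1 hρ.le)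
    have hmm := mm_lip (τ * θ t) (τ' * θ (t + 2 ^ k)) (θ (t + w)) (θ (t + 2 ^ k + w))
    rw [mm_sign hτ hτ'] at hmm
    have hmm2 : |mm (θ (t + w)) (θ (t + 2 ^ k + w)) - mm (θ t) (θ (t + 2 ^ k))| ≤
        2 * (ε₀ / (S.rho * S.x t)) := by linarith
    have hcomm : t + (w : ℤ) + 2 ^ k = t + 2 ^ k + w := by ring
    have hF1 : F1 S ε₁ θ k (t + w) =
        min (S.rho * S.x (t + w) / ε₁ * mm (θ (t + w)) (θ (t + 2 ^ k + w))) 16 := by
      unfold F1 y1 mm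
      rw [hcomm]
    have hF2 : F1 S ε₁ θ k t = min (S.rho * S.x t / ε₁ * mm (θ t) (θ (t + 2 ^ k))) 16 := rfl
    have hxw : S.x (t + w) = S.x t * Real.exp (S.h * ((w : ℤ) : ℝ)) := Par.x_add t w
    have hwh' : S.h * ((w : ℤ) : ℝ) ≤ S.rho ^ 2 := by
      push_cast
      linarith
    have hwh0 : 0 ≤ S.h * ((w : ℤ) : ℝ) := by
      push_cast
      positivity
    set d : ℝ := Real.exp (S.h * ((w : ℤ) : ℝ)) - 1 with hd
    have hd0 : 0 ≤ d := by
      rw [hd]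
      have := Real.one_le_exp hwh0
      linarith
    have hd1 : d ≤ 2 * S.rho ^ 2 := by
      have := exp_sub_one_le hwh0 (by nlinarith)
      linarith
    set Y' : ℝ := S.rho * S.x t / ε₁ * mm (θ (t + w)) (θ (t + 2 ^ k + w)) with hY'
    have hY'0 : 0 ≤ Y' := by
      have := mm_nonneg (θ (t + w)) (θ (t + 2 ^ k + w))
      positivity
    have hF1' : F1 S ε₁ θ k (t + w) = min (Y' * (1 + d)) 16 := by
      rw [hF1, hxw, hY', hd]
      congr 1
      ring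
    have e1 : |min (Y' * (1 + d)) 16 - min Y' 16| ≤ 16 * d := clip_scale hY'0 hd0
    have e2 : |min Y' 16 - F1 S ε₁ θ k t| ≤ 2 * (ε₀ / ε₁) := by
      rw [hF2]
      refine (clip_lip _ _).trans ?_
      rw [hY', ← mul_sub, abs_mul, abs_of_nonneg (by positivity)]
      calc S.rho * S.x t / ε₁ *
            |mm (θ (t + w)) (θ (t + 2 ^ k + w)) - mm (θ t) (θ (t + 2 ^ k))|
          ≤ S.rho * S.x t / ε₁ * (2 * (ε₀ / (S.rho * S.x t))) :=
            mul_le_mul_of_nonneg_left hmm2 (by positivity)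
        _ = 2 * (ε₀ / ε₁) := by
            field_simp
    have e3 : ε₀ / ε₁ ≤ ε' / 100 := by
      rw [div_le_iff₀ hε₁]
      linarith
    have e4 : |F1 S ε₁ θ k (t + w) - F1 S ε₁ θ k t| ≤ 16 * d + 2 * (ε₀ / ε₁) := by
      rw [hF1']
      calc |min (Y' * (1 + d)) 16 - F1 S ε₁ θ k t|
          = |(min (Y' * (1 + d)) 16 - min Y' 16) + (min Y' 16 - F1 S ε₁ θ k t)| := by
            congr 1
            ring
        _ ≤ _ := (abs_add_le _ _).trans (add_le_add e1 e2)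
    have e5 : 16 * d ≤ ε' / 2 := by
      have h1 : S.rho ^ 2 ≤ S.rho / 100 := hρ2
      nlinarith
    linarith
  have hcnt := (Par.cnt_le_add (S := S) hpt)
  have hc1 := Par.cnt_or (S := S) (fun t => t + (w : ℤ) ∈ S.I ∧ ¬ ShR S ε₀ θ φ t w)
    (fun t => t + 2 ^ k ∈ S.I ∧ (t + 2 ^ k + (w : ℤ) ∈ S.I ∧ ¬ ShR S ε₀ θ φ (t + 2 ^ k) w))
  have hc2 := Par.cnt_or (S := S) (fun t => t + 2 ^ k ∉ S.I) (fun t => t + (2 ^ k + (w : ℤ)) ∉ S.I)
  have hc3 := Par.cnt_shift (S := S) (fun s => s + (w : ℤ) ∈ S.I ∧ ¬ ShR S ε₀ θ φ s w) (2 ^ k)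
  have hc4 := Par.cnt_out (S := S) (2 ^ k)
  have hc5 := Par.cnt_out (S := S) (2 ^ k + (w : ℤ))
  have h2k : ((2 ^ k : ℤ) : ℝ) * S.h ≤ 1 := by
    have h1 : ((2 ^ k : ℤ) : ℝ) ≤ 2 ^ S.J := by
      push_cast
      exact pow_le_pow_right₀ (by norm_num) hk
    have h2 := hS.hJ
    have h3 : Real.log 2 ≤ 1 := by
      have := Real.log_two_lt_d9
      linarith
    calc ((2 ^ k : ℤ) : ℝ) * S.h ≤ 2 ^ S.J * S.h := mul_le_mul_of_nonneg_right h1 hh.le
      _ = S.h * 2 ^ S.J := by ring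
      _ ≤ 1 := by rw [h2]; exact h3
  have h2k0 : (0 : ℝ) ≤ ((2 ^ k : ℤ) : ℝ) := by
    push_cast
    positivity
  rw [abs_of_nonneg h2k0] at hc4
  have h2kw0 : (0 : ℝ) ≤ ((2 ^ k + (w : ℤ) : ℤ) : ℝ) := by
    push_cast
    positivity
  rw [abs_of_nonneg h2kw0] at hc5
  have hsum : (((2 ^ k : ℤ) : ℝ) + ((2 ^ k + (w : ℤ) : ℤ) : ℝ)) ≤ ε' / 2 * S.N := by
    have h1 : (((2 ^ k : ℤ) : ℝ) + ((2 ^ k + (w : ℤ) : ℤ) : ℝ)) * S.h ≤ 3 := by
      have h3 : ((2 ^ k + (w : ℤ) : ℤ) : ℝ) = ((2 ^ k : ℤ) : ℝ) + w := by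
        push_cast
        ring
      rw [h3]
      have h4 : S.rho ^ 2 ≤ 1 := by nlinarith
      nlinarith
    have h2 : 3 ≤ ε' / 2 * (S.N * S.h) := by
      have h4 : (1 : ℝ) ≤ S.K := by
        rw [hSK]
        exact_mod_cast hK
      have h5 : 12 * (1 / ε') ≤ 12 * S.K * S.L := by
        have h6 : 0 < 1 / ε' := by positivity
        nlinarith
      have h7 : 12 * (1 / ε') ≤ S.N * S.h := h5.trans hS.hI1
      calc (3 : ℝ) ≤ ε' / 2 * (12 * (1 / ε')) := by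
            have : ε' / 2 * (12 * (1 / ε')) = 6 := by
              field_simp
              norm_num
            rw [this]
            norm_num
        _ ≤ _ := mul_le_mul_of_nonneg_left h7 (by positivity)
    have h3 : (((2 ^ k : ℤ) : ℝ) + ((2 ^ k + (w : ℤ) : ℤ) : ℝ)) * S.h ≤ ε' / 2 * S.N * S.h := by
      rw [mul_assoc (ε' / 2)]
      exact h1.trans h2
    exact le_of_mul_le_mul_right h3 hh
  simp only [add_assoc] at hcnt hc1 hc2 hc3 ⊢
  linarith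

end Pool.Agent.H81.N4D
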