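import Pool.Agent.H6.N4D.TC

/-! (SQQ) the multiples of the two frequencies have the same distance to the integers. -/

set_option autoImplicit false

namespace Pool.Agent.H81.N4D

open Finset Pool.Agent.H6.N4D

/-- the number of `i` with `r + q i < n` -/
def Mr (n q r : ℕ) : ℕ := (n + q - 1 - r) / q

theorem lt_Mr {n q r i : ℕ} (hr : r < q) : i < Mr n q r ↔ r + q * i < n := by
  unfold Mr
  have hq : 0 < q := by omega
  rw [← Nat.add_one_le_iff, Nat.le_div_iff_mul_le hq, Nat.add_mul, Nat.one_mul, Nat.mul_comm i q]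
  omega

open Classical in
theorem card_res (n q : ℕ) (hq : 1 ≤ q) (P : ℕ → Prop) :
    ((range n).filter P).card =
      ∑ r ∈ range q, ((range (Mr n q r)).filter (fun i => P (r + q * i))).card := by
  rw [Finset.card_eq_sum_card_fiberwise (f := fun j => j % q) (t := range q)
    (fun j _ => by
      simp only [Finset.coe_range, Set.mem_Iio]
      exact Nat.mod_lt _ hq)]
  refine Finset.sum_congr rfl fun r hr => ?_
  rw [Finset.mem_range] at hr
  refine Finset.card_nbij' (fun j => j / q) (fun i => r + q * i) ?_ ?_ ?_ ?_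
  · intro j hj
    simp only [Finset.coe_filter, Finset.mem_filter, Finset.mem_range, Set.mem_ofPred_eq] at hj ⊢
    obtain ⟨⟨h1, h2⟩, h3⟩ := hj
    have h4 : r + q * (j / q) = j := by
      rw [← h3]
      exact Nat.mod_add_div j q
    rw [h4]
    exact ⟨(lt_Mr hr).2 (by rw [h4]; exact h1), h2⟩
  · intro i hi
    simp only [Finset.coe_filter, Finset.mem_filter, Finset.mem_range, Set.mem_ofPred_eq] at hi ⊢
    exact ⟨⟨(lt_Mr hr).1 hi.1, hi.2⟩, by rw [Nat.add_mul_mod_self_left, Nat.mod_eq_of_lt hr]⟩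
  · intro j hj
    simp only [Finset.coe_filter, Finset.mem_filter, Finset.mem_range, Set.mem_ofPred_eq] at hj
    show r + q * (j / q) = j
    rw [← hj.2]
    exact Nat.mod_add_div j q
  · intro i _
    show (r + q * i) / q = i
    rw [Nat.add_mul_div_left _ _ hq, Nat.div_eq_of_lt hr, zero_add]

theorem sum_Mr (n q : ℕ) (hq : 1 ≤ q) : ∑ r ∈ range q, Mr n q r = n := by
  have h := card_res n q hq (fun _ => True)
  simp only [Finset.filter_true, Finset.card_range] at h
  exact h.symm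

/-- a change of the parity -/
def Pd (α β : ℝ) (q m : ℕ) : Prop :=
  Odd (⌊2 * (α * ((m : ℝ) + 1 + q) + β) + 1 / 2⌋ - ⌊2 * (α * ((m : ℝ) + 1) + β) + 1 / 2⌋)

open Classical in
theorem count_Pd (hSCN : T_SCN) (α β : ℝ) (n q : ℕ) (hq : 1 ≤ q) :
    |(((range n).filter (Pd α β q)).card : ℝ) - 2 * n * nd (q * α)| ≤ q := by
  have h1 := card_res n q hq (Pd α β q)
  have h2 : ∀ r ∈ range q, |(((range (Mr n q r)).filter
      (fun i => Pd α β q (r + q * i))).card : ℝ) - 2 * (Mr n q r) * nd (q * α)| ≤ 1 := by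
    intro r _
    have h3 := hSCN (q * α) (α * (r + 1) + β) (Mr n q r)
    have h4 : ∀ i : ℕ, Pd α β q (r + q * i) ↔ Odd (⌊2 * ((q : ℝ) * α * ((i : ℝ) + 1) +
        (α * ((r : ℝ) + 1) + β)) + 1 / 2⌋ -
        ⌊2 * ((q : ℝ) * α * (i : ℝ) + (α * ((r : ℝ) + 1) + β)) + 1 / 2⌋) := by
      intro i
      unfold Pd
      have e1 : 2 * (α * (((r + q * i : ℕ) : ℝ) + 1 + q) + β) + 1 / 2 =
          2 * ((q : ℝ) * α * ((i : ℝ) + 1) + (α * ((r : ℝ) + 1) + β)) + 1 / 2 := by
        push_cast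
        ring
      have e2 : 2 * (α * (((r + q * i : ℕ) : ℝ) + 1) + β) + 1 / 2 =
          2 * ((q : ℝ) * α * (i : ℝ) + (α * ((r : ℝ) + 1) + β)) + 1 / 2 := by
        push_cast
        ring
      rw [e1, e2]
    have h5 : ((range (Mr n q r)).filter (fun i => Pd α β q (r + q * i))).card =
        ((range (Mr n q r)).filter fun j : ℕ =>
          Odd (⌊2 * ((q : ℝ) * α * ((j : ℝ) + 1) + (α * ((r : ℝ) + 1) + β)) + 1 / 2⌋ -
            ⌊2 * ((q : ℝ) * α * (j : ℝ) + (α * ((r : ℝ) + 1) + β)) + 1 / 2⌋)).card := by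
      congr 1
      ext i
      rw [Finset.mem_filter, Finset.mem_filter, h4]
    rw [h5]
    exact h3
  have h6 : (((range n).filter (Pd α β q)).card : ℝ) - 2 * n * nd (q * α) =
      ∑ r ∈ range q, ((((range (Mr n q r)).filter
        (fun i => Pd α β q (r + q * i))).card : ℝ) - 2 * (Mr n q r) * nd (q * α)) := by
    rw [h1, Finset.sum_sub_distrib, ← Finset.sum_mul, ← Finset.mul_sum]
    have h7 : ((n : ℕ) : ℝ) = ∑ r ∈ range q, (Mr n q r : ℝ) := by
      rw [← Nat.cast_sum, sum_Mr n q hq]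
    rw [← h7]
    push_cast
    rfl
  rw [h6]
  refine (Finset.abs_sum_le_sum_abs _ _).trans ?_
  refine (Finset.sum_le_sum h2).trans (le_of_eq ?_)
  rw [Finset.sum_const, Finset.card_range, nsmul_eq_mul, mul_one]

/-- the two waves do not have the same sign -/
def Bd (α β α' β' : ℝ) (j : ℕ) : Prop := Real.cos (2 * Real.pi * (α * j + β)) *
    Real.cos (2 * Real.pi * (α' * j + β')) ≤ 0

theorem parity (hCPA : T_CPA) {α β α' β' : ℝ} {j : ℕ} (h : ¬ Bd α β α' β' j) :
    Even ⌊2 * (α * (j : ℝ) + β) + 1 / 2⌋ ↔ Even ⌊2 * (α' * (j : ℝ) + β') + 1 / 2⌋ := by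
  unfold Bd at h
  rw [not_le] at h
  have h1 : Real.cos (2 * Real.pi * (α * j + β)) ≠ 0 := left_ne_zero_of_mul h.ne'
  have h2 : Real.cos (2 * Real.pi * (α' * j + β')) ≠ 0 := right_ne_zero_of_mul h.ne'
  rw [← hCPA _ h1, ← hCPA _ h2]
  constructor
  · intro h3
    exact (pos_iff_pos_of_mul_pos h).1 h3
  · intro h3
    exact (pos_iff_pos_of_mul_pos h).2 h3

theorem parity_diff (hCPA : T_CPA) {α β α' β' : ℝ} {m q : ℕ} (h1 : ¬ Bd α β α' β' (m + 1))
    (h2 : ¬ Bd α β α' β' (m + 1 + q)) : Pd α β q m ↔ Pd α' β' q m := by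
  have h3 := parity hCPA h1
  have h4 := parity hCPA h2
  push_cast at h3 h4
  unfold Pd
  rw [Int.odd_sub, Int.odd_sub, ← Int.not_even_iff_odd, ← Int.not_even_iff_odd, h4, h3]

open Classical in
theorem count_diff (hCPA : T_CPA) (α β α' β' : ℝ) (N q : ℕ) (hq : q ≤ N) :
    (((range (N - q)).filter (Pd α β q)).card : ℝ) ≤
      ((range (N - q)).filter (Pd α' β' q)).card + 2 * er N α β α' β' := by
  have hsub : (range (N - q)).filter (Pd α β q) ⊆ (range (N - q)).filter (Pd α' β' q) ∪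
      ((range (N - q)).filter (fun m => Bd α β α' β' (m + 1)) ∪
        (range (N - q)).filter (fun m => Bd α β α' β' (m + 1 + q))) := by
    intro m hm
    rw [Finset.mem_filter] at hm
    rw [Finset.mem_union, Finset.mem_union, Finset.mem_filter, Finset.mem_filter,
      Finset.mem_filter]
    by_cases h1 : Bd α β α' β' (m + 1)
    · exact Or.inr (Or.inl ⟨hm.1, h1⟩)
    · by_cases h2 : Bd α β α' β' (m + 1 + q)
      · exact Or.inr (Or.inr ⟨hm.1, h2⟩)
      · exact Or.inl ⟨hm.1, (parity_diff hCPA h1 h2).1 hm.2⟩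
  have hE : ∀ v : ℕ, v ≤ q →
      ((range (N - q)).filter (fun m => Bd α β α' β' (m + 1 + v))).card ≤ er N α β α' β' := by
    intro v hv
    unfold er
    refine Finset.card_le_card_of_injOn (fun m => m + 1 + v) ?_ ?_
    · intro m hm
      simp only [Finset.coe_filter, Finset.mem_filter, Finset.mem_range, Set.mem_ofPred_eq,
        Finset.mem_Icc] at hm ⊢
      refine ⟨⟨by omega, by omega⟩, ?_⟩
      exact hm.2
    · intro x _ y _ hxy
      simpa using hxy
  have h0 := hE 0 (Nat.zero_le _)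
  simp only [Nat.add_zero] at h0
  have h1 := hE q le_rfl
  have h2 := (Finset.card_le_card hsub).trans ((Finset.card_union_le _ _).trans
    (Nat.add_le_add_left (Finset.card_union_le _ _) _))
  have h3 : ((range (N - q)).filter (Pd α β q)).card ≤
      ((range (N - q)).filter (Pd α' β' q)).card + 2 * er N α β α' β' := by omega
  exact_mod_cast h3

theorem er_comm (α β α' β' : ℝ) (N : ℕ) : er N α' β' α β = er N α β α' β' := by
  unfold er
  congr 1
  ext j
  rw [Finset.mem_filter, Finset.mem_filter, mul_comm]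

theorem pf_SQQ (hCPA : T_CPA) (hSCN : T_SCN) : T_SQQ := by
  classical
  intro α β α' β' e N q hq hqN he
  have h1 := count_Pd hSCN α β (N - q) q hq
  have h2 := count_Pd hSCN α' β' (N - q) q hq
  have h3 := count_diff hCPA α β α' β' N q (by omega)
  have h4 := count_diff hCPA α' β' α β N q (by omega)
  rw [er_comm] at h4
  have hN : (0 : ℝ) < N := by
    have : 0 < N := by omega
    exact_mod_cast this
  have hNq : ((N - q : ℕ) : ℝ) = N - q := by
    rw [Nat.cast_sub (by omega)]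
  have hNq2 : (N : ℝ) ≤ 2 * ((N : ℝ) - q) := by
    have : (2 * q : ℝ) ≤ N := by exact_mod_cast hqN
    linarith
  rw [hNq] at h1 h2
  set c := (((range (N - q)).filter (Pd α β q)).card : ℝ) with hc
  set c' := (((range (N - q)).filter (Pd α' β' q)).card : ℝ) with hc'
  have hq0 : (0 : ℝ) ≤ q := Nat.cast_nonneg q
  rw [abs_le] at h1 h2
  have hkey : 2 * ((N : ℝ) - q) * |nd (q * α) - nd (q * α')| ≤ 2 * (e * N) + 2 * q := by
    rw [← abs_of_nonneg (show (0 : ℝ) ≤ 2 * ((N : ℝ) - q) by linarith), ← abs_mul, abs_le]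
    constructor
    · nlinarith [h1.1, h1.2, h2.1, h2.2]
    · nlinarith [h1.1, h1.2, h2.1, h2.2]
  have h5 : (N : ℝ) * |nd (q * α) - nd (q * α')| ≤ 2 * (e * N) + 2 * q :=
    (mul_le_mul_of_nonneg_right hNq2 (abs_nonneg _)).trans hkey
  have h6 : 2 * e + 2 * q / N = (2 * (e * N) + 2 * q) / N := by
    field_simp
  rw [h6, le_div_iff₀ hN, mul_comm]
  exact h5

end Pool.Agent.H81.N4D
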