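import Pool.Agent.H6.N4D.TB

/-! (TWO) two prime numbers detect small numbers modulo one. -/

set_option autoImplicit false

namespace Pool.Agent.H81.N4D

open Finset Pool.Agent.H6.N4D

theorem pf_TWO : T_TWO := by
  intro p q δ ζ hp hq hpq h1 h2 h3
  have hp0 : (0 : ℝ) < p := by exact_mod_cast hp.pos
  have hq0 : (0 : ℝ) < q := by exact_mod_cast hq.pos
  obtain ⟨j, hj⟩ := exists_int ((p : ℝ) * δ)
  obtain ⟨j', hj'⟩ := exists_int ((q : ℝ) * δ)
  set s : ℝ := (p : ℝ) * δ - j with hs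
  set s' : ℝ := (q : ℝ) * δ - j' with hs'
  have e1 : ((q : ℝ) * j - p * j') = p * s' - q * s := by
    rw [hs, hs']
    ring
  have e2 : |((q : ℝ) * j - p * j')| < 1 := by
    rw [e1]
    calc |(p : ℝ) * s' - q * s| ≤ |(p : ℝ) * s'| + |(q : ℝ) * s| := abs_sub _ _
      _ = p * |s'| + q * |s| := by
          rw [abs_mul, abs_mul, abs_of_pos hp0, abs_of_pos hq0]
      _ ≤ p * (q * ζ) + q * (p * ζ) := by
          rw [hj, hj']
          exact add_le_add (mul_le_mul_of_nonneg_left h2 hp0.le)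
            (mul_le_mul_of_nonneg_left h1 hq0.le)
      _ = 2 * p * q * ζ := by ring
      _ < 1 := h3
  have e3 : (q : ℤ) * j - p * j' = 0 := by
    have e4 : |(((q : ℤ) * j - p * j' : ℤ) : ℝ)| < 1 := by
      push_cast
      exact e2
    have e5 : |(q : ℤ) * j - p * j'| < 1 := by exact_mod_cast e4
    exact Int.abs_lt_one_iff.1 e5
  have hdvd : (p : ℤ) ∣ j := by
    have h4 : (p : ℤ) ∣ (q : ℤ) * j := ⟨j', by linarith⟩
    have hcop : IsCoprime (p : ℤ) (q : ℤ) :=
      Nat.isCoprime_iff_coprime.2 ((Nat.coprime_primes hp hq).2 hpq)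
    exact hcop.dvd_of_dvd_mul_left h4
  obtain ⟨i, rfl⟩ := hdvd
  have hj'i : j' = q * i := by
    have h4 : (p : ℤ) * ((q : ℤ) * i - j') = 0 := by linarith
    have h5 : (p : ℤ) ≠ 0 := by exact_mod_cast hp.ne_zero
    have h6 := (mul_eq_zero.1 h4).resolve_left h5
    linarith
  have hδ1 : δ - i = s / p := by
    rw [hs]
    field_simp
    push_cast
    ring
  have hδ2 : δ - i = s' / q := by
    rw [hs', hj'i]
    field_simp
    push_cast
    ring
  have hn1 : nd δ ≤ |s| / p := by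
    have := nd_le δ i
    rw [hδ1, abs_div, abs_of_pos hp0] at this
    exact this
  have hn2 : nd δ ≤ |s'| / q := by
    have := nd_le δ i
    rw [hδ2, abs_div, abs_of_pos hq0] at this
    exact this
  refine ⟨?_, ?_, ?_⟩
  · refine hn1.trans ?_
    rw [div_le_iff₀ hp0, hj, mul_comm ζ]
    exact h1
  · refine le_antisymm (nd_nat_mul_le p δ) ?_
    rw [le_div_iff₀ hp0] at hn1
    rw [← hj]
    linarith
  · refine le_antisymm (nd_nat_mul_le q δ) ?_
    rw [le_div_iff₀ hq0] at hn2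
    rw [← hj']
    linarith

end Pool.Agent.H81.N4D
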